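import Pool.Agent.TH964.HC.Cube

/-!
MP_cdd51b_co (Sun's question on Latin cubes): transversals in the products of an arbitrary Latin cube
with all reducible Latin cubes of large order.

The definitions used:

* `IsCube L` (`Pool/Agent/TH964/HC/Cube.lean`): `L : R → R → R → S` takes every symbol exactly once
  along every line, that is, `i ↦ L i j k`, `j ↦ L i j k` and `k ↦ L i j k` are bijective;
* `CubeTransversal L` (same file): there are permutations `σ, τ` of `R` such that
  `r ↦ L r (σ r) (τ r)` is bijective;
* `IsLatin A` (`Pool/Agent/TH964/HP/Ext.lean`): `y ↦ A x y` and `x ↦ A x y` are bijective.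

Sketch of the proof. An identity `α i + β j + γ k = δ (L i j k)` in an abelian group forces
`∑ α + ∑ β + ∑ γ = ∑ δ`; therefore there are integral weights on the cells of `L` whose sum over
the cells with a given value of a given coordinate, or with a given symbol, is one, and for all
large `m` there are such nonnegative weights with all sums equal to `m`. Take the cells with these
multiplicities. By König's theorem they can be labelled with `x` so that `(i, x)` and `(j, x)` run
through all pairs exactly once, and with `z` so that `(k, z)` and `(L i j k, z)` do. The cells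
`((i, x), (j, τ x), (k, z))` have the symbols `(L i j k, ω z)` and form a transversal.
-/

set_option autoImplicit false

namespace Pool.Agent.Results.MP_cdd51b_co.CubeProducts

open TH964.HC TH964.HP

/-- For every `n` there is `m₀` such that for all Latin cubes `L` of order `n` and all sets `S` with
at least `m₀` elements: (1) for all Latin squares `A`, `B` on `S` the product of `L` and the cube
`B (A x y) z` is a Latin cube and has a transversal; (2) the same holds for all families of Latin
squares `A i j k`, `B i j k`, depending on the cell of `L`, which satisfy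
`A i j k x (τ x) = q i j k` and `B i j k (q i j k) z = ω z` for some permutations `τ`, `ω`. -/
theorem result (n : ℕ) : ∃ m₀ : ℕ, ∀ L : Fin n → Fin n → Fin n → Fin n, IsCube L →
    ∀ (S : Type) [Finite S], m₀ ≤ Nat.card S →
      (∀ A B : S → S → S, IsLatin A → IsLatin B →
        IsCube (fun a b c : Fin n × S => (L a.1 b.1 c.1, B (A a.2 b.2) c.2)) ∧
        CubeTransversal (fun a b c : Fin n × S => (L a.1 b.1 c.1, B (A a.2 b.2) c.2))) ∧
      (∀ (A B : Fin n → Fin n → Fin n → S → S → S) (τ ω : Equiv.Perm S)
        (q : Fin n → Fin n → Fin n → S), (∀ i j k, IsLatin (A i j k)) →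
        (∀ i j k, IsLatin (B i j k)) → (∀ i j k x, A i j k x (τ x) = q i j k) →
        (∀ i j k z, B i j k (q i j k) z = ω z) →
        IsCube (fun a b c : Fin n × S =>
          (L a.1 b.1 c.1, B a.1 b.1 c.1 (A a.1 b.1 c.1 a.2 b.2) c.2)) ∧
        CubeTransversal (fun a b c : Fin n × S =>
          (L a.1 b.1 c.1, B a.1 b.1 c.1 (A a.1 b.1 c.1 a.2 b.2) c.2))) := by
  obtain ⟨m₀, h⟩ := cube_main n
  refine ⟨m₀, fun L hL S _ hS => ⟨fun A B hA hB => ⟨?_, (h L hL S hS).1 A B hA hB⟩,
    fun A B τ ω q hA hB h1 h2 => ⟨isCube_family L hL S A B hA hB,
      (h L hL S hS).2 A B τ ω q h1 h2⟩⟩⟩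
  exact isCube_family L hL S (fun _ _ _ => A) (fun _ _ _ => B) (fun _ _ _ => hA) (fun _ _ _ => hB)

end Pool.Agent.Results.MP_cdd51b_co.CubeProducts
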